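import Pool.Agent.W544.KF.Defs2

/-!
# Project KF, part LIF: lifting of an idempotent inside a subring, and conjugacy
-/

set_option autoImplicit false

universe v u

namespace Pool.Agent.W701.KF.LIF

open Pool.Agent.W544.KF

section

variable {R : Type v} [Ring R] {J : Set R}
  (hl : ∀ r, ∀ x ∈ J, r * x ∈ J) (hr : ∀ r, ∀ x ∈ J, x * r ∈ J) (ha : ∀ x ∈ J, ∀ y ∈ J, x + y ∈ J)

include hl ha in
theorem sub_memJ {x y : R} (hx : x ∈ J) (hy : y ∈ J) : x - y ∈ J := by
  have h1 : x - y = x + (-1) * y := by noncomm_ring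
  rw [h1]
  exact ha x hx _ (hl (-1) y hy)

include hl ha in
theorem pow_memJ {x : R} (hx : x * x - x ∈ J) (n : ℕ) : x ^ (n + 1) - x ∈ J := by
  induction n with
  | zero =>
    have h1 : x ^ (0 + 1) - x = 0 * (x * x - x) := by
      rw [zero_add, pow_one, sub_self, zero_mul]
    rw [h1]
    exact hl 0 _ hx
  | succ n ih =>
    have h1 : x ^ (n + 1 + 1) - x = x * (x ^ (n + 1) - x) + (x * x - x) := by
      rw [pow_succ' x (n + 1), mul_sub]
      abel
    rw [h1]
    exact ha _ (hl x _ ih) _ hx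

include hl hr ha in
theorem idem_congr {x y : R} (hxy : x - y ∈ J) (hy : y * y - y ∈ J) : x * x - x ∈ J := by
  have h1 : x * x - x = ((x - y) * x + y * (x - y) + (y * y - y)) - (x - y) := by noncomm_ring
  rw [h1]
  exact sub_memJ hl ha (ha _ (ha _ (hr x _ hxy) _ (hl y _ hxy)) _ hy) hxy

end

/-- the polynomial identity behind the lifting -/
theorem poly (n : ℕ) : ∃ Q : Polynomial ℤ,
    (1 - (1 - Polynomial.X ^ n) ^ n) * (1 - Polynomial.X ^ n : Polynomial ℤ) ^ n =
      (Polynomial.X ^ 2 - Polynomial.X) ^ n * Q := by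
  have h1 : (Polynomial.X ^ n : Polynomial ℤ) ∣ 1 - (1 - Polynomial.X ^ n) ^ n := by
    have h := sub_dvd_pow_sub_pow (1 : Polynomial ℤ) (1 - Polynomial.X ^ n) n
    rwa [one_pow, sub_sub_cancel] at h
  have h2 : ((1 - Polynomial.X) ^ n : Polynomial ℤ) ∣ (1 - Polynomial.X ^ n) ^ n := by
    apply pow_dvd_pow_of_dvd
    have h := sub_dvd_pow_sub_pow (1 : Polynomial ℤ) Polynomial.X n
    rwa [one_pow] at h
  obtain ⟨a, ha⟩ := h1
  obtain ⟨b, hb⟩ := h2
  refine ⟨(-1) ^ n * (a * b), ?_⟩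
  have h3 : (Polynomial.X ^ 2 - Polynomial.X : Polynomial ℤ) ^ n * (-1) ^ n =
      Polynomial.X ^ n * (1 - Polynomial.X) ^ n := by
    rw [← mul_pow, ← mul_pow]
    congr 1
    ring
  calc (1 - (1 - Polynomial.X ^ n) ^ n) * (1 - Polynomial.X ^ n : Polynomial ℤ) ^ n
      = (Polynomial.X ^ n * a) * ((1 - Polynomial.X) ^ n * b) := by rw [← ha, ← hb]
    _ = (Polynomial.X ^ n * (1 - Polynomial.X) ^ n) * (a * b) := by ring
    _ = (Polynomial.X ^ 2 - Polynomial.X) ^ n * ((-1) ^ n * (a * b)) := by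
        rw [← h3]; ring

theorem idem {R : Type v} [Ring R] (e : R) (n : ℕ) (h : (e * e - e) ^ n = 0) :
    (1 - (1 - e ^ n) ^ n) * (1 - (1 - e ^ n) ^ n) = 1 - (1 - e ^ n) ^ n := by
  obtain ⟨Q, hQ⟩ := poly n
  have h1 := congrArg (Polynomial.aeval e) hQ
  simp only [map_mul, map_sub, map_one, map_pow, Polynomial.aeval_X] at h1
  rw [sq, h, zero_mul] at h1
  have h2 : (1 - (1 - e ^ n) ^ n) * (1 - (1 - e ^ n) ^ n) =
      (1 - (1 - e ^ n) ^ n) - (1 - (1 - e ^ n) ^ n) * (1 - e ^ n) ^ n := by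
    rw [mul_sub, mul_one]
  rw [h2, h1, sub_zero]

theorem lift : S_lift.{v} := by
  intro R _ J hl hr ha hn R0 e p he hp hep
  have hpp : p * p - p ∈ J := by
    have h1 : p * p - p = 0 * (e - p) := by rw [hp, sub_self, zero_mul]
    rw [h1]
    exact hl 0 _ hep
  have hee : e * e - e ∈ J := idem_congr hl hr ha hep hpp
  obtain ⟨n, hnn⟩ := hn _ hee
  have hn1 : (e * e - e) ^ (n + 1) = 0 := by rw [pow_succ, hnn, zero_mul]
  set x := e ^ (n + 1) with hx
  set p' := 1 - (1 - x) ^ (n + 1) with hp'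
  have hid : p' * p' = p' := idem e (n + 1) hn1
  have hxe : x - e ∈ J := pow_memJ hl ha hee n
  have hxx : x * x - x ∈ J := idem_congr hl hr ha hxe hee
  have h1x : (1 - x) * (1 - x) - (1 - x) ∈ J := by
    have h1 : (1 - x) * (1 - x) - (1 - x) = x * x - x := by noncomm_ring
    rw [h1]
    exact hxx
  have hpow : (1 - x) ^ (n + 1) - (1 - x) ∈ J := pow_memJ hl ha h1x n
  have hp'e : p' - e ∈ J := by
    have h1 : p' - e = (x - e) - ((1 - x) ^ (n + 1) - (1 - x)) := by
      rw [hp']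
      abel
    rw [h1]
    exact sub_memJ hl ha hxe hpow
  have hmem : p' ∈ R0 :=
    R0.sub_mem R0.one_mem (R0.pow_mem (R0.sub_mem R0.one_mem (R0.pow_mem he _)) _)
  refine ⟨p', hmem, hid, ?_⟩
  have hd : p' - p ∈ J := by
    have h1 : p' - p = (p' - e) + (e - p) := by abel
    rw [h1]
    exact ha _ hp'e _ hep
  have hunit : IsUnit (p' * p + (1 - p') * (1 - p)) := by
    have h1 : p' * p + (1 - p') * (1 - p) = 1 + (p' - p) * (2 * p - 1) := by
      have h2 : (p' - p) * (2 * p - 1) = 2 * (p' * p) - p' - 2 * (p * p) + p := by noncomm_ring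
      rw [h2, hp]
      noncomm_ring
    rw [h1]
    exact IsNilpotent.isUnit_one_add (hn _ (hr _ _ hd))
  obtain ⟨w, hw⟩ := hunit
  refine ⟨w, ((w⁻¹ : Rˣ) : R), w.mul_inv, w.inv_mul, ?_⟩
  clear_value p'
  have h1 : (w : R) * p = p' * p := by
    have h3 : (w : R) * p = p' * (p * p) + (1 - p') * (p - p * p) := by
      rw [hw]
      noncomm_ring
    rw [h3, hp, sub_self, mul_zero, add_zero]
  have h2 : p' * (w : R) = p' * p := by
    have h3 : p' * (w : R) = (p' * p') * p + (p' - p' * p') * (1 - p) := by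
      rw [hw]
      noncomm_ring
    rw [h3, hid, sub_self, zero_mul, add_zero]
  rw [h1, ← h2, mul_assoc, w.mul_inv, mul_one]

end Pool.Agent.W701.KF.LIF
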